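import Pool.Agent.Helper73.DC.St6

set_option autoImplicit false

/-! Project DC, module A1 (helper34): numbers. -/

namespace Pool.Agent.Helper34.DC

open Pool.Agent.Helper73.DC
open Finset
open scoped Classical

theorem mA1 : StA1 := by
  intro e he
  set K := e + 10 with hK
  refine ⟨15 * (e + 2) * (K + 2) + 26, ?_⟩
  intro n q hq hqL
  set C := 15 * (e + 2) * (K + 2) + 26 with hC
  have hC1 : 5 * (e + 2) + 1 ≤ C := by rw [hC]; nlinarith
  have hC2 : 8 * (K + 2) + 1 ≤ C := by rw [hC]; nlinarith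
  have hC3 : 24 ≤ C := by rw [hC]; omega
  have hC4 : 15 * (e + 2) * (K + 2) ≤ C := by rw [hC]; omega
  clear_value C
  unfold LL at hqL ⊢
  unfold RR kkk eee
  -- the numbers
  have hlam1 : n + 2 < 2 ^ lam n := Nat.lt_pow_succ_log_self (by norm_num) (n + 2)
  have hlam2 : 2 ^ lam n ≤ (n + 2) ^ 2 := by
    unfold lam
    have h := Nat.pow_log_le_self 2 (show n + 2 ≠ 0 by omega)
    rw [pow_succ]
    nlinarith
  have hlam3 : 1 ≤ lam n := by unfold lam; omega
  have hl1 : 2 ^ lll n ≤ lam n := Nat.pow_log_le_self 2 (by omega)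
  have hl2 : lam n < 2 ^ (lll n + 1) := Nat.lt_pow_succ_log_self (by norm_num) (lam n)
  generalize lam n = A at *
  generalize lll n = l at *
  set m := l / 2 with hm
  set s := 2 ^ m with hs
  have hs1 : m + 1 ≤ s := Nat.lt_two_pow_self
  have hs2 : s * s ≤ A := by
    refine le_trans ?_ hl1
    rw [hs, ← pow_add]
    exact Nat.pow_le_pow_right (by norm_num) (by omega)
  have hsl : l + 1 ≤ 2 * s := by omega
  have hss : s ≤ s * s := Nat.le_mul_self s
  have hkk : 2 * 2 ^ (m + 1) = 4 * s := by rw [pow_succ]; ring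
  rw [hkk]
  -- q
  have hK2 : 6 * (24 * (e + 2)) ≤ 2 ^ K := by
    have h1 : e + 2 < 2 ^ (e + 2) := Nat.lt_two_pow_self
    have h2 : 2 ^ K = 2 ^ (e + 2) * 256 := by
      rw [hK, show e + 10 = (e + 2) + 8 by ring, pow_add]; norm_num
    rw [h2]; nlinarith
  have hq6 : 6 * q < 2 ^ (K + l + 1) := by
    have h1 : 6 * q ≤ 6 * (24 * (e + 2)) * A := by nlinarith
    have h2 : 6 * (24 * (e + 2)) * A ≤ 2 ^ K * A := Nat.mul_le_mul_right _ hK2
    have h3 : 2 ^ K * A < 2 ^ K * 2 ^ (l + 1) := Nat.mul_lt_mul_of_pos_left hl2 (by positivity)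
    rw [add_assoc, pow_add]
    omega
  have hKl : K + l + 1 ≤ (K + 2) * s := by nlinarith
  refine ⟨?_, ?_, ?_, ?_, ?_, ?_, ?_, hlam2⟩
  · -- (1)
    have h1 : (n + 2) ^ e + 2 ≤ (n + 2) ^ (e + 2) := by
      have : 1 ≤ (n + 2) ^ e := Nat.one_le_pow _ _ (by omega)
      rw [pow_add]
      nlinarith
    have h2 : (n + 2) ^ (e + 2) ≤ (2 ^ A) ^ (e + 2) := Nat.pow_le_pow_left hlam1.le _
    calc ((n + 2) ^ e + 2) ^ 5 ≤ ((2 ^ A) ^ (e + 2)) ^ 5 := Nat.pow_le_pow_left (h1.trans h2) _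
      _ = 2 ^ (5 * (e + 2) * A) := by rw [← pow_mul, ← pow_mul]; ring_nf
  · -- (2)
    refine Nat.pow_lt_pow_right (by norm_num) ?_
    exact Nat.mul_lt_mul_of_pos_right (by omega) (by omega)
  · -- (3)
    have h1 : K + l + 1 ≤ C * A := by
      have : (K + 2) * s ≤ C * A := Nat.mul_le_mul (by omega) (hss.trans hs2)
      omega
    have h2 : 2 ^ (K + l + 1) ≤ 2 ^ (C * A) := Nat.pow_le_pow_right (by norm_num) h1
    omega
  · -- (4)
    have h0 : (K + l + 1) * (4 * s + 1) < C * A := by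
      have h1 : (K + l + 1) * (4 * s + 1) ≤ ((K + 2) * s) * (8 * s) := Nat.mul_le_mul hKl (by omega)
      have h2 : ((K + 2) * s) * (8 * s) = (8 * (K + 2)) * (s * s) := by ring
      have h3 : (8 * (K + 2)) * (s * s) ≤ (8 * (K + 2)) * A := Nat.mul_le_mul_left _ hs2
      have h4 : (8 * (K + 2)) * A < C * A := Nat.mul_lt_mul_of_pos_right (by omega) (by omega)
      omega
    calc (6 * (q - 1)) ^ (4 * s + 1) ≤ (2 ^ (K + l + 1)) ^ (4 * s + 1) := Nat.pow_le_pow_left (by omega) _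
      _ = 2 ^ ((K + l + 1) * (4 * s + 1)) := by rw [← pow_mul]
      _ < 2 ^ (C * A) := Nat.pow_lt_pow_right (by norm_num) h0
  · -- (5)
    have h0 : (m + 3) * (4 * s + 3) ≤ C * A := by
      have h1 : (m + 3) * (4 * s + 3) ≤ (3 * s) * (8 * s) := Nat.mul_le_mul (by omega) (by omega)
      have h2 : (3 * s) * (8 * s) = 24 * (s * s) := by ring
      have h3 : 24 * (s * s) ≤ C * A := Nat.mul_le_mul hC3 hs2
      omega
    have h5 : 4 * s + 3 ≤ 2 ^ (m + 3) := by
      rw [pow_add, ← hs]; omega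
    calc (4 * s + 3) ^ (4 * s + 3) ≤ (2 ^ (m + 3)) ^ (4 * s + 3) := Nat.pow_le_pow_left h5 _
      _ = 2 ^ ((m + 3) * (4 * s + 3)) := by rw [← pow_mul]
      _ ≤ 2 ^ (C * A) := Nat.pow_le_pow_right (by norm_num) h0
  · -- (6)
    have h1 : (n + 2) ^ e ≤ (2 ^ A) ^ e := Nat.pow_le_pow_left hlam1.le _
    have h2 : e * A < (m + 1) * (e * A / (m + 1) + 1) := Nat.lt_mul_div_succ _ (by omega)
    calc (n + 2) ^ e ≤ (2 ^ A) ^ e := h1
      _ = 2 ^ (e * A) := by rw [← pow_mul]; ring_nf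
      _ < 2 ^ ((m + 1) * (e * A / (m + 1) + 1)) := Nat.pow_lt_pow_right (by norm_num) h2
      _ = (2 ^ (m + 1)) ^ (e * A / (m + 1) + 1) := by rw [← pow_mul]
  · -- (7)
    have h2 : e * A < (m + 1) * (e * A / (m + 1) + 1) := Nat.lt_mul_div_succ _ (by omega)
    generalize e * A / (m + 1) = R at h2 ⊢
    have h3 : s ≤ R + 1 + 1 := by
      by_contra hcon
      push Not at hcon
      have h4 : (m + 1) * (R + 1) ≤ s * s := Nat.mul_le_mul hs1 (by omega)
      nlinarith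
    have h5 : (K + l + 1) * (3 * (5 * (e + 2) * A)) ≤ C * A * (R + 1 + 1) := by
      calc (K + l + 1) * (3 * (5 * (e + 2) * A)) ≤ ((K + 2) * (R + 1 + 1)) * (3 * (5 * (e + 2) * A)) :=
            Nat.mul_le_mul_right _ (hKl.trans (Nat.mul_le_mul_left _ h3))
        _ = (15 * (e + 2) * (K + 2)) * (A * (R + 1 + 1)) := by ring
        _ ≤ C * (A * (R + 1 + 1)) := Nat.mul_le_mul_right _ hC4
        _ = C * A * (R + 1 + 1) := by ring
    calc q ^ (3 * (5 * (e + 2) * A)) ≤ (2 ^ (K + l + 1)) ^ (3 * (5 * (e + 2) * A)) :=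
          Nat.pow_le_pow_left (by omega) _
      _ = 2 ^ ((K + l + 1) * (3 * (5 * (e + 2) * A))) := by rw [← pow_mul]
      _ ≤ 2 ^ (C * A * (R + 1 + 1)) := Nat.pow_le_pow_right (by norm_num) h5

end Pool.Agent.Helper34.DC
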